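import Pool.Agent.H58.FL.TargetsB

/-!
MP_6a7a6f_gt, row BIN of the board flc_modules: binomial coefficients kill the top homology
(helper82).
-/

set_option autoImplicit false

open Topology

namespace Pool.Agent.H82.FL

open Pool.Agent.H58.FL Pool.Agent.H59 Pool.Agent.H48.FR

/-- a change of the degree -/
theorem shift_deg {Y Z : Type} [TopologicalSpace Y] [TopologicalSpace Z] (f : C(Y, Z)) (N : ℤ)
    (e : ℕ) (h : ∀ z : Ch ℤ (e + 1) Y, bd ℤ e Y z = 0 →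
      ∃ b : Ch ℤ (e + 2) Z, bd ℤ (e + 1) Z b = N • pf ℤ (e + 1) f z) (d : ℕ) (hd : e = d + 1) :
    ∀ z : Ch ℤ (d + 2) Y, bd ℤ (d + 1) Y z = 0 →
      ∃ b : Ch ℤ (d + 3) Z, bd ℤ (d + 2) Z b = N • pf ℤ (d + 2) f z := by
  subst hd
  exact h

/-- chains are torsion free -/
theorem tf {n : ℕ} {Y : Type} [TopologicalSpace Y] (a : ℤ) (ha : a ≠ 0) (x y : Ch ℤ n Y)
    (h : a • x = a • y) : x = y := by
  ext σ
  have h1 := DFunLike.congr_fun h σ
  rw [Finsupp.smul_apply, Finsupp.smul_apply, smul_eq_mul, smul_eq_mul] at h1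
  exact mul_left_cancel₀ ha h1

theorem pf_comp' {n : ℕ} {X Y Z : Type} [TopologicalSpace X] [TopologicalSpace Y]
    [TopologicalSpace Z] (f : C(X, Y)) (g : C(Y, Z)) (x : Ch ℤ n X) :
    pf ℤ n (g.comp f) x = pf ℤ n g (pf ℤ n f x) := by
  induction x using Finsupp.induction_linear with
  | zero => simp
  | add x y hx hy => rw [map_add, map_add, map_add, hx, hy]
  | single σ r =>
    rw [pf_single, pf_single, pf_single]
    rfl

/-- BIN. -/
theorem pf_BIN (hHTP : T_HTP) (hGEN : T_GEN) (hKIB : T_KIB) (hMLP : T_MLP) (hGEP : T_GEP)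
    (hPFZ : T_PFZ) (hDV2 : T_DV2) (hZZ0 : T_ZZ0) (hFU2 : T_FU2) (hTCC : T_TCC) (hHMT : T_HMT) :
    T_BIN := by
  intro j l ε hε hj hr
  have hn : 1 ≤ j + l := by omega
  obtain ⟨d, hd⟩ : ∃ d, 2 * (j + l) = d + 1 := ⟨2 * (j + l) - 1, by omega⟩
  rw [hd]
  refine hKIB _ _ _ d _ (shift_deg _ _ (2 * (j + l)) ?_ d hd)
  intro z hz
  obtain ⟨N, H, C, hN, hH, hC, hbd, hs, hval⟩ := hFU2 (j + l) (Real.pi / 4) hn
    (by have := Real.pi_pos; positivity)
  obtain ⟨hgc, hgP, hgS, hg4, hg5⟩ := hGEP j l N hN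
  set HE : C(Fin (2 * (j + l)) → ℝ, CPn l × CPn j) := ⟨gE j l N, hgc⟩ with hHE
  obtain ⟨zE, hzE⟩ := hDV2 (CPn l × CPn j) j l N HE hgS
  have hf0 : (((j.factorial * l.factorial : ℕ)) : ℤ) ≠ 0 := by
    exact_mod_cast Nat.mul_ne_zero (Nat.factorial_ne_zero j) (Nat.factorial_ne_zero l)
  -- the cycle
  have hzEbd : bd ℤ (2 * (j + l)) (CPn l × CPn j) zE = 0 := by
    refine tf _ hf0 _ _ ?_
    rw [smul_zero, ← map_smul, hzE]
    exact hTCC _ _ N HE (by omega) hgP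
  set m : C(CPn l × CPn j, CPn (j + l)) :=
    ⟨fun q => mP q.2 q.1, (hMLP j l).2.2.2.2.2⟩ with hm
  have hmH : m.comp HE = H := by
    ext1 y
    rw [hH y]
    exact hg4 y
  have hch : (((j + l).factorial : ℕ) : ℤ) =
      ((j.factorial * l.factorial : ℕ) : ℤ) * (((j + l).choose j : ℕ) : ℤ) := by
    have h1 := Nat.add_choose_mul_factorial_mul_factorial j l
    rw [← h1, ← Nat.choose_symm_add]
    push_cast
    ring
  have hpm : pf ℤ (2 * (j + l) + 1) m zE = (((j + l).choose j : ℕ) : ℤ) • C := by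
    refine tf _ hf0 _ _ ?_
    rw [← map_smul, hzE, hPFZ, hmH, ← hC, smul_smul, hch]
  -- the homotopy
  obtain ⟨c, hc⟩ := hHMT j l ε hε hj hr
  have hom := hc ((kc (CPn (j + l)) ε hε).comp m) (fun p => rfl)
  obtain ⟨b, hb⟩ := hHTP _ _ _ _ hom (2 * (j + l) + 1) zE hzEbd
  have h0 : pf ℤ (2 * (j + l) + 1) (c.comp ⟨Prod.fst, continuous_fst⟩) zE = 0 := by
    refine tf _ hf0 _ _ ?_
    rw [smul_zero, ← map_smul, hzE, hPFZ]
    refine hZZ0 _ (j + l) N _ (Fin.castAdd l ⟨0, hj⟩) ?_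
    intro y y' hy
    show c (gE j l N y).1 = c (gE j l N y').1
    rw [hg5 ⟨0, hj⟩ y y' hy]
  rw [h0, sub_zero, pf_comp', hpm, map_smul] at hb
  -- the end
  obtain ⟨a, b1, hb1⟩ := hGEN (j + l) hn C hbd hs hval z hz
  have hz2 : z = a • C + bd ℤ (2 * (j + l) + 1) (CPn (j + l)) b1 := by
    rw [hb1]
    abel
  refine ⟨a • b + (((j + l).choose j : ℕ) : ℤ) •
    pf ℤ (2 * (j + l) + 2) (kc (CPn (j + l)) ε hε) b1, ?_⟩
  rw [map_add, map_smul, map_smul, hb, bd_pf]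
  conv_rhs => rw [hz2, map_add, map_smul]
  rw [smul_add, smul_comm a]

end Pool.Agent.H82.FL
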